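import Pool.Agent.UL4.Stmts

set_option autoImplicit false

open Set

namespace Pool.Agent.UL4.H60

theorem ovb (h1 : MasStmt) (h2 : TbdStmt) (h3 : WinStmt) : OvbStmt := by
  intro F hc hcc hF hm l₁ hl0 hl1 hw
  set ρ : ℝ := Real.sqrt (4 / 3) with hρ
  have hρ2 : ρ ^ 2 = 4 / 3 := Real.sq_sqrt (by norm_num)
  have hρ0 : 0 ≤ ρ := Real.sqrt_nonneg _
  have hρlo : (11547 / 10000 : ℝ) ≤ ρ := by
    apply Real.le_sqrt_of_sq_le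
    norm_num
  have hρhi : ρ ≤ 11548 / 10000 := by
    rw [hρ]
    apply Real.sqrt_le_iff.mpr
    constructor <;> norm_num
  have hb : ∀ t ∈ Icc (0 : ℝ) 1, F t ≤ 1338 / 1000 := by
    intro t ht
    by_contra hcon
    push Not at hcon
    obtain ⟨l', l'', a1, a2, a3, a4, a5, a6, a7, a8, a9, a10⟩ :=
      h3 F (1 / 2) ρ ρ l₁ l₁ t hcc le_rfl le_rfl hl0 hl1 hw hl0 hl1 hw ht (by linarith)
    have h4 := h1 F l'' l' t (1 / 2) ρ ρ (1338 / 1000) hc hcc hF a1 a2 a3 a4 a5 a6 hρ0 hρ0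
      (by norm_num) a7 a8 hcon.le a9 a10
    rw [hm] at h4
    nlinarith
  have h5 := h2 F l₁ l₁ (1 / 2) ρ ρ (1338 / 1000) hc hcc (fun t ht => ⟨hF t ht, hb t ht⟩) hl0 le_rfl
    le_rfl hl1 hρ0 le_rfl (hw l₁ ⟨le_rfl, by linarith⟩) (hw l₁ ⟨le_rfl, by linarith⟩)
    (hw _ ⟨by linarith, le_rfl⟩) (hw _ ⟨by linarith, le_rfl⟩)
  rw [hm] at h5
  have hρ4 : ρ ^ 4 = 16 / 9 := by
    have : ρ ^ 4 = (ρ ^ 2) ^ 2 := by ring
    rw [this, hρ2]; norm_num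
  refine h5.trans ?_
  rw [hρ4, hρ2]
  norm_num

end Pool.Agent.UL4.H60
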